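import Pool.Agent.FR.Main
import Pool.Agent.FR.SMain

/-!
# A birationally superrigid Fano variety which is not K-stable

The statement is in the language of schemes: `PVar` is a normal projective variety over `ℂ`.
-/

set_option autoImplicit false

namespace Pool.Agent.Results.MP_c0959a_ag.SuperrigidUnstable

open Pool.Agent.FR Pool.Agent.FR.S

theorem result : ∃ (X : PVar) (E : DVal X.K), Nonempty (X.Bas 9) ∧ ∀ (n : ℕ) (B : X.Bas n),
    X.IsBirRigid B ∧ X.IsSuperrigid ∧
    X.IsOn E ∧ X.IsLogDisc B E 1 ∧ X.beta B E 1 = -1 / 10 ∧ ¬ X.IsKStable B := by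
  obtain ⟨K, h1, h2, ⟨F⟩⟩ := exists_FD
  obtain ⟨B, E, X, -, -, -, -, hX, -, h4, h5, h6, h7, -⟩ := main_F F
  exact main_of_engine B X E hX.fano hX.picard
    (fun Y L S h => ⟨(h4 Y L S h).1, fun V hV => ((h4 Y L S h).2 V hV).symm⟩) h5 1 (-1 / 10) h6 h7
    (by norm_num)

end Pool.Agent.Results.MP_c0959a_ag.SuperrigidUnstable
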